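import Pool.Agent.Helper99.WP.GoalsK

/-!
# WP, packet OCC: occupation of sets of positive density
-/

open Finset

namespace Pool.Agent.Helper1.WP

open Pool.Agent.Helper99.WP Pool.Agent.Helper99.ERW

theorem le_rr (j : ℕ) : j ≤ rr j := by
  induction j with
  | zero => exact Nat.zero_le _
  | succ n ih => rw [rr]; omega

theorem exists_rr (r : ℕ) : ∃ j, r ≤ rr j ∧ rr j ≤ 3 * r := by
  have h : ∃ j, r ≤ rr j := ⟨r, le_rr r⟩
  classical
  refine ⟨Nat.find h, Nat.find_spec h, ?_⟩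
  rcases hn : Nat.find h with _ | n
  · simp [rr]
  · have h2 : ¬ r ≤ rr n := Nat.find_min h (by omega)
    rw [rr]
    omega

theorem OCC (hGCM : GCM_stmt) (hQQQ : QQQ_stmt) (hCZS : CZS_stmt) : OCC_stmt := by
  intro d κ hκ
  obtain ⟨K1, δ, c1, hδ0, hδ1, hc0, hc1, H⟩ := hCZS d κ hκ
  obtain ⟨-, hcard, -, -, -, hmono⟩ := hQQQ d
  -- the exponent
  have hlδ : Real.log δ < 0 := Real.log_neg hδ0 hδ1
  have hlc : Real.log c1 < 0 := Real.log_neg hc0 hc1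
  obtain ⟨γ, hγ⟩ : ∃ γ : ℝ, γ = Real.log c1 / Real.log δ := ⟨_, rfl⟩
  have hγ0 : 0 < γ := hγ ▸ div_pos_of_neg_of_neg hlc hlδ
  have hδγ : δ ^ γ = c1 := by
    rw [Real.rpow_def_of_pos hδ0, hγ, mul_div_cancel₀ _ hlδ.ne, Real.exp_log hc0]
  have h3 : (0 : ℝ) < 3 ^ d := by positivity
  refine ⟨3 * K1, c1 * (((3 : ℝ) ^ d) ^ γ)⁻¹, γ, by positivity, hγ0, ?_⟩
  intro p hp r y A hA z hz
  -- step 1
  have step1 : ∀ (k : ℕ) (j : ℕ) (y : Site d) (D A : Finset (Site d)),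
      Q (K1 * (rr j + 1)) y ⊆ D → A ⊆ Q (rr j) y →
      δ ^ (k + 1) * (Q (rr j) y).card < (A.card : ℝ) →
      ∀ z ∈ Q (rr j) y, c1 ^ (k + 1) * ((rr j : ℝ) + 1) ^ 2 ≤ Gr p D (ind A) z := by
    intro k
    induction k with
    | zero =>
      intro j y D A hD hA hk z hz
      rw [zero_add, pow_one] at hk ⊢
      exact (H p hp j y D A hD hA).2 hk z hz
    | succ k ih =>
      intro j y D A hD hA hk z hz
      by_cases hc : δ * (Q (rr j) y).card < (A.card : ℝ)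
      · refine le_trans ?_ ((H p hp j y D A hD hA).2 hc z hz)
        apply mul_le_mul_of_nonneg_right _ (by positivity)
        exact pow_le_of_le_one hc0.le hc1.le (by omega)
      · obtain ⟨B, hB, hAB, hG⟩ := (H p hp j y D A hD hA).1 (not_lt.1 hc)
        have h1 : δ ^ (k + 1) * (Q (rr j) y).card < (B.card : ℝ) := by
          have h2 : δ * (δ ^ (k + 1) * (Q (rr j) y).card) < δ * (B.card : ℝ) := by
            refine lt_of_lt_of_le ?_ hAB
            rw [← mul_assoc, ← pow_succ']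
            exact hk
          exact lt_of_mul_lt_mul_left h2 hδ0.le
        have h2 := ih j y D B hD hB h1 z hz
        calc c1 ^ (k + 1 + 1) * ((rr j : ℝ) + 1) ^ 2
            = c1 * (c1 ^ (k + 1) * ((rr j : ℝ) + 1) ^ 2) := by ring
          _ ≤ c1 * Gr p D (ind B) z := mul_le_mul_of_nonneg_left h2 hc0.le
          _ ≤ Gr p D (ind A) z := hG z
  -- step 2
  rcases A.eq_empty_or_nonempty with rfl | hne
  · rw [card_empty, Nat.cast_zero, zero_div, Real.zero_rpow hγ0.ne', mul_zero, zero_mul]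
    exact (hGCM d κ p hκ hp _).2.2.2.1 _ (fun x _ => by simp [ind]) z
  obtain ⟨j, hj1, hj2⟩ := exists_rr r
  have hAj : A ⊆ Q (rr j) y := hA.trans (hmono r (rr j) y hj1)
  have hD : Q (K1 * (rr j + 1)) y ⊆ Q (3 * K1 * (r + 1)) y := by
    apply hmono
    calc K1 * (rr j + 1) ≤ K1 * (3 * r + 1) := Nat.mul_le_mul_left _ (by omega)
      _ ≤ K1 * (3 * (r + 1)) := Nat.mul_le_mul_left _ (by omega)
      _ = 3 * K1 * (r + 1) := by ring
  have hA0 : (0 : ℝ) < A.card := by exact_mod_cast hne.card_pos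
  have hQj : (0 : ℝ) < (Q (rr j) y).card := by
    exact_mod_cast (hne.mono hAj).card_pos
  have hQr : (0 : ℝ) < (Q r y).card := by
    exact_mod_cast (hne.mono hA).card_pos
  have hQ3 : ((Q (rr j) y).card : ℝ) ≤ 3 ^ d * (Q r y).card := by
    rw [hcard, hcard]
    push_cast
    rw [← mul_pow]
    apply pow_le_pow_left₀ (by positivity)
    have : (rr j : ℝ) ≤ 3 * r := by exact_mod_cast hj2
    linarith
  -- relative densities
  obtain ⟨ρ', hρ'⟩ : ∃ ρ' : ℝ, ρ' = (A.card : ℝ) / (Q (rr j) y).card := ⟨_, rfl⟩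
  have hρ0 : 0 < ρ' := hρ' ▸ div_pos hA0 hQj
  have hρ1 : ρ' ≤ 1 := by
    rw [hρ', div_le_one hQj]
    exact_mod_cast card_le_card hAj
  have hρρ : (A.card : ℝ) / (Q r y).card ≤ 3 ^ d * ρ' := by
    rw [hρ', div_le_iff₀ hQr, mul_div_assoc', div_mul_eq_mul_div, le_div_iff₀ hQj]
    calc (A.card : ℝ) * (Q (rr j) y).card ≤ A.card * (3 ^ d * (Q r y).card) :=
          mul_le_mul_of_nonneg_left hQ3 hA0.le
      _ = 3 ^ d * A.card * (Q r y).card := by ring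
  have hex : ∃ k : ℕ, δ ^ (k + 1) < ρ' := by
    obtain ⟨n, hn⟩ := exists_pow_lt_of_lt_one hρ0 hδ1
    exact ⟨n, lt_of_le_of_lt (pow_le_pow_of_le_one hδ0.le hδ1.le (Nat.le_succ n)) hn⟩
  classical
  obtain ⟨k, hk⟩ : ∃ k, k = Nat.find hex := ⟨_, rfl⟩
  have hk1 : δ ^ (k + 1) < ρ' := hk ▸ Nat.find_spec hex
  have hk2 : ρ' ≤ δ ^ k := by
    rcases k with _ | n
    · rw [pow_zero]; exact hρ1
    · exact not_lt.1 (Nat.find_min hex (by omega))
  have hck : ρ' ^ γ ≤ c1 ^ k := by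
    calc ρ' ^ γ ≤ (δ ^ k) ^ γ := Real.rpow_le_rpow hρ0.le hk2 hγ0.le
      _ = c1 ^ k := by
        rw [← Real.rpow_natCast_mul hδ0.le, mul_comm, Real.rpow_mul hδ0.le, hδγ,
          Real.rpow_natCast]
  have hA1 : δ ^ (k + 1) * (Q (rr j) y).card < (A.card : ℝ) := by
    rw [hρ', lt_div_iff₀ hQj] at hk1
    exact hk1
  have hmain := step1 k j y _ A hD hAj hA1 z (hmono r (rr j) y hj1 hz)
  refine le_trans ?_ hmain
  have e1 : (((3 : ℝ) ^ d) ^ γ)⁻¹ * ((A.card : ℝ) / (Q r y).card) ^ γ ≤ ρ' ^ γ := by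
    rw [inv_mul_le_iff₀ (by positivity), ← Real.mul_rpow h3.le hρ0.le]
    exact Real.rpow_le_rpow (by positivity) hρρ hγ0.le
  have e2 : ((r : ℝ) + 1) ^ 2 ≤ ((rr j : ℝ) + 1) ^ 2 := by
    apply pow_le_pow_left₀ (by positivity)
    have : (r : ℝ) ≤ rr j := by exact_mod_cast hj1
    linarith
  calc c1 * (((3 : ℝ) ^ d) ^ γ)⁻¹ * ((A.card : ℝ) / (Q r y).card) ^ γ * ((r : ℝ) + 1) ^ 2
      = c1 * ((((3 : ℝ) ^ d) ^ γ)⁻¹ * ((A.card : ℝ) / (Q r y).card) ^ γ) * ((r : ℝ) + 1) ^ 2 := by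
        ring
    _ ≤ c1 * (c1 ^ k) * ((rr j : ℝ) + 1) ^ 2 := by
        apply mul_le_mul _ e2 (by positivity) (by positivity)
        exact mul_le_mul_of_nonneg_left (e1.trans hck) hc0.le
    _ = c1 ^ (k + 1) * ((rr j : ℝ) + 1) ^ 2 := by ring

end Pool.Agent.Helper1.WP
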