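import Pool.Agent.Helper99.WP.GoalsK

/-!
# WP, packet SHL: the Green function near its pole
-/

open Finset

namespace Pool.Agent.Helper1.WP

open Pool.Agent.Helper99.WP Pool.Agent.Helper99.ERW

theorem SHL (hGEX : GEX_stmt) (hGCM : GCM_stmt) (hQQQ : QQQ_stmt) (hHIT : HIT_stmt)
    (hHRN : HRN_stmt) : SHL_stmt := by
  intro d κ hκ
  obtain ⟨K1, C1, hK1, hC1, HH⟩ := hHRN d κ hκ
  obtain ⟨K2, c2, γ, hc2, hγ, hK2, HT⟩ := hHIT d κ hκ
  obtain ⟨hmem, hcard, -, -, htri, hmono⟩ := hQQQ d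
  have hC0 : 0 < C1 := lt_of_lt_of_le one_pos hC1
  have hK1R : (1 : ℝ) ≤ K1 := by exact_mod_cast hK1
  refine ⟨4 * K2 + 3, 2 * K1, c2 * ((1 / (14 * (K1 : ℝ))) ^ d) ^ γ / C1, by positivity, by omega, ?_⟩
  intro b hb p hp r hr x z0 z hz0 hz0' hz
  have hr1 : 1 ≤ r := by omega
  obtain ⟨u, hu⟩ : ∃ u : Site d → ℝ, u = fun w => gg p (Q (b * r) x) w x := ⟨_, rfl⟩
  have hsol := (hGEX d κ p hκ hp (Q (b * r) x) (ind {x})).1
  have hlap : ∀ w ∈ Q (b * r) x, lap p u w = - ind {x} w := by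
    intro w hw
    rw [hu]
    exact hsol.2 w hw
  have hpos : ∀ w, 0 ≤ u w := by
    intro w
    rw [hu]
    refine (hGCM d κ p hκ hp (Q (b * r) x)).2.2.2.1 (ind {x}) (fun w _ => ?_) w
    rw [ind]; split_ifs <;> norm_num
  have hind : ∀ w, 0 ≤ ind ({x} : Finset (Site d)) w := by
    intro w
    rw [ind]; split_ifs <;> norm_num
  -- the small radius
  obtain ⟨s, hs⟩ : ∃ s, s = r / K1 := ⟨_, rfl⟩
  have hs1 : K1 * s ≤ r := hs ▸ Nat.mul_div_le r K1
  have hs2 : 2 ≤ s := by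
    rw [hs, Nat.le_div_iff_mul_le (by omega)]
    omega
  have hs3 : r < K1 * (s + 1) := by
    rw [hs]
    exact Nat.lt_mul_div_succ r (by omega)
  obtain ⟨ρ, hρ⟩ : ∃ ρ, s = ρ + 1 := ⟨s - 1, by omega⟩
  have hsr : s ≤ r := (Nat.le_mul_of_pos_left s (by omega)).trans hs1
  -- Harnack
  have hH : ∀ w ∈ Q ρ z0, u z0 ≤ C1 * u w := by
    intro w hw
    refine HH p hp ρ z0 u ?_ (fun w _ => hpos w) z0 ?_ w hw
    · intro v hv
      rw [← hρ] at hv
      have hv1 : v ∈ Q (K1 * s + 2 * r) x := htri (K1 * s) (2 * r) z0 x hz0 hv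
      have hv2 : v ∈ Q (b * r) x := by
        refine hmono _ _ x ?_ hv1
        calc K1 * s + 2 * r ≤ 3 * r := by omega
          _ ≤ b * r := Nat.mul_le_mul_right _ (by omega)
      have hvx : v ≠ x := by
        rintro rfl
        apply hz0'
        rw [hmem] at hv ⊢
        intro l
        have := hv l
        rw [abs_sub_comm] at this
        refine this.trans ?_
        exact_mod_cast hs1
      rw [hlap v hv2, ind, if_neg (by simpa using hvx), neg_zero]
    · rw [hmem]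
      intro l
      simp
  -- growth
  have hsub : Q ρ z0 ⊆ Q (3 * r) x :=
    (htri ρ (2 * r) z0 x hz0).trans (hmono _ _ x (by omega))
  have hT := HT p hp (3 * r) x u (Q ρ z0) (u z0 / C1) (div_nonneg (hpos z0) hC0.le) hsub
    (fun w hw => by
      have hw2 : w ∈ Q (b * r) x := by
        refine hmono _ _ x ?_ hw
        calc K2 * (3 * r + 1) ≤ K2 * (4 * r) := Nat.mul_le_mul_left _ (by omega)
          _ = (4 * K2) * r := by ring
          _ ≤ b * r := Nat.mul_le_mul_right _ (by omega)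
      rw [hlap w hw2]
      have := hind w
      linarith)
    (fun w _ => hpos w)
    (fun w hw => by
      rw [div_le_iff₀ hC0, mul_comm]
      exact hH w hw) z hz
  have hratio : (1 / (14 * (K1 : ℝ))) ^ d ≤ ((Q ρ z0).card : ℝ) / (Q (3 * r) x).card := by
    rw [hcard, hcard]
    push_cast
    rw [← div_pow]
    apply pow_le_pow_left₀ (by positivity)
    have h1 : (r : ℝ) ≤ 2 * K1 * s := by
      have : r ≤ 2 * K1 * s := by nlinarith
      exact_mod_cast this
    have h2 : (s : ℝ) = ρ + 1 := by exact_mod_cast hρ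
    have h3 : (1 : ℝ) ≤ r := by exact_mod_cast hr1
    have h4 : (0 : ℝ) ≤ ρ := Nat.cast_nonneg _
    rw [div_le_div_iff₀ (by positivity) (by positivity)]
    rw [h2] at h1
    nlinarith
  rw [hu] at hT
  simp only at hT
  have hgg : 0 ≤ gg p (Q (b * r) x) z0 x := by
    have := hpos z0
    rw [hu] at this
    exact this
  have hrp : ((1 / (14 * (K1 : ℝ))) ^ d) ^ γ ≤ (((Q ρ z0).card : ℝ) / (Q (3 * r) x).card) ^ γ :=
    Real.rpow_le_rpow (by positivity) hratio hγ.le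
  calc c2 * ((1 / (14 * (K1 : ℝ))) ^ d) ^ γ / C1 * gg p (Q (b * r) x) z0 x
      = c2 * ((1 / (14 * (K1 : ℝ))) ^ d) ^ γ * (gg p (Q (b * r) x) z0 x / C1) := by ring
    _ ≤ c2 * (((Q ρ z0).card : ℝ) / (Q (3 * r) x).card) ^ γ * (gg p (Q (b * r) x) z0 x / C1) :=
        mul_le_mul_of_nonneg_right (mul_le_mul_of_nonneg_left hrp hc2.le)
          (div_nonneg hgg hC0.le)
    _ ≤ gg p (Q (b * r) x) z x := hT

end Pool.Agent.Helper1.WP
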